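import Mathlib

/-!
# Finitely generated commutative rings have d-Σ₂ Scott sentences

We define the infinitary logic `L_{ω₁ω}` (in negation normal form), its classes `Σ_n`, `Π_n`,
d-`Σ_n`, and Scott sentences, and prove that every finitely generated commutative ring (in
particular every finitely generated integral domain) has a d-`Σ₂` Scott sentence in the language
`0, 1, +, -, *`.
-/

namespace Pool.Agent.Results.MP_93e0ce_lc.FinitelyGeneratedRings

open FirstOrder

universe u v

/-- Formulas of the infinitary logic `L_{ω₁ω}` over the language `L`, with free variables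
indexed by a type: finitary formulas, countable disjunctions and conjunctions, and finite blocks
of existential or universal quantifiers. -/
inductive Form (L : FirstOrder.Language.{0, 0}) : Type → Type 1
  | fin {α : Type} (φ : L.Formula α) : Form L α
  | or {α : Type} {ι : Type} [Countable ι] (f : ι → Form L α) : Form L α
  | and {α : Type} {ι : Type} [Countable ι] (f : ι → Form L α) : Form L α
  | ex {α : Type} (k : ℕ) (f : Form L (α ⊕ Fin k)) : Form L α
  | all {α : Type} (k : ℕ) (f : Form L (α ⊕ Fin k)) : Form L α

/-- Satisfaction of a formula in a structure `M` under an assignment of its free variables. -/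
def Form.Realize {L : FirstOrder.Language.{0, 0}} (M : Type u) [L.Structure M] :
    ∀ {α : Type}, Form L α → (α → M) → Prop
  | _, .fin φ, v => φ.Realize v
  | _, @Form.or _ _ _ _ f, v => ∃ i, (f i).Realize M v
  | _, @Form.and _ _ _ _ f, v => ∀ i, (f i).Realize M v
  | _, .ex k f, v => ∃ x : Fin k → M, f.Realize M (Sum.elim v x)
  | _, .all k f, v => ∀ x : Fin k → M, f.Realize M (Sum.elim v x)

mutual

/-- `Σ_a` formulas (finite levels): finitary quantifier-free formulas are `Σ_0`; a `Σ_a` formula
is a countable disjunction of formulas `∃ x̄ φ` with each `φ` in `Π_b` for some `b < a`. -/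
inductive IsSigma {L : FirstOrder.Language.{0, 0}} : ∀ {α : Type}, ℕ → Form L α → Prop
  | zero {α : Type} (φ : L.Formula α) (h : φ.IsQF) : IsSigma 0 (.fin φ)
  | step {α : Type} {a : ℕ} {ι : Type} [Countable ι] (k b : ι → ℕ) (hb : ∀ i, b i < a)
      (f : ∀ i, Form L (α ⊕ Fin (k i))) (h : ∀ i, IsPi (b i) (f i)) :
      IsSigma a (.or fun i => .ex (k i) (f i))

/-- `Π_a` formulas (finite levels): finitary quantifier-free formulas are `Π_0`; a `Π_a` formula
is a countable conjunction of formulas `∀ x̄ φ` with each `φ` in `Σ_b` for some `b < a`. -/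
inductive IsPi {L : FirstOrder.Language.{0, 0}} : ∀ {α : Type}, ℕ → Form L α → Prop
  | zero {α : Type} (φ : L.Formula α) (h : φ.IsQF) : IsPi 0 (.fin φ)
  | step {α : Type} {a : ℕ} {ι : Type} [Countable ι] (k b : ι → ℕ) (hb : ∀ i, b i < a)
      (f : ∀ i, Form L (α ⊕ Fin (k i))) (h : ∀ i, IsSigma (b i) (f i)) :
      IsPi a (.and fun i => .all (k i) (f i))

end

/-- A d-`Σ_a` formula is the conjunction of a `Σ_a` formula and a `Π_a` formula. -/
def IsDSigma {L : FirstOrder.Language.{0, 0}} {α : Type} (a : ℕ) (φ : Form L α) : Prop :=
  ∃ σ π : Form L α, IsSigma a σ ∧ IsPi a π ∧ φ = .and (ι := Bool) (fun i => cond i σ π)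

/-- `φ` is a Scott sentence of the structure `A`: its countable models are exactly the countable
structures isomorphic to `A`. -/
def IsScottSentence {L : FirstOrder.Language.{0, 0}} (A : Type u) [L.Structure A] (φ : Form L Empty) :
    Prop :=
  ∀ (M : Type) [Countable M] [L.Structure M],
    φ.Realize M Empty.elim ↔ Nonempty (A ≃[L] M)

/-! ### Invariance under isomorphism -/

theorem realize_iso {L : FirstOrder.Language.{0, 0}} {M : Type u} {N : Type v} [L.Structure M]
    [L.Structure N] (e : M ≃[L] N) {α : Type} (φ : Form L α) :
    ∀ v : α → M, φ.Realize M v ↔ φ.Realize N (e ∘ v) := by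
  induction φ with
  | fin φ => intro v; exact (FirstOrder.Language.StrongHomClass.realize_formula e φ).symm
  | or f ih =>
    intro v
    simp only [Form.Realize]
    exact exists_congr fun i => ih i v
  | and f ih =>
    intro v
    simp only [Form.Realize]
    exact forall_congr' fun i => ih i v
  | ex k f ih =>
    intro v
    simp only [Form.Realize]
    constructor
    · rintro ⟨x, hx⟩
      refine ⟨e ∘ x, ?_⟩
      have := (ih _).1 hx
      rwa [Sum.comp_elim] at this
    · rintro ⟨x, hx⟩
      refine ⟨e.symm ∘ x, (ih _).2 ?_⟩
      rw [Sum.comp_elim]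
      convert hx using 2
      funext i
      simp
  | all k f ih =>
    intro v
    simp only [Form.Realize]
    constructor
    · intro h x
      have := (ih _).1 (h (e.symm ∘ x))
      rw [Sum.comp_elim] at this
      convert this using 2
      funext i
      simp
    · intro h x
      refine (ih _).2 ?_
      rw [Sum.comp_elim]
      exact h _

/-! ### The Π₁ type of a tuple -/

/-- The index set: quantifier-free formulas `θ(x, y)` with `A ⊨ ∀ y θ(a, y)`. -/
structure Idx (L : FirstOrder.Language.{0, 0}) {A : Type u} [L.Structure A] {α : Type}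
    (a : α → A) : Type where
  m : ℕ
  θ : L.Formula (α ⊕ Fin m)
  qf : θ.IsQF
  holds : ∀ x : Fin m → A, θ.Realize (Sum.elim a x)

theorem countable_functions : Countable (Σ l, FirstOrder.Language.ring.Functions l) := by
  have : Countable FirstOrder.Language.ring.Symbols := inferInstance
  exact Function.Injective.countable (f := (Sum.inl : _ → FirstOrder.Language.ring.Symbols))
    Sum.inl_injective

instance {A : Type u} [FirstOrder.Language.ring.Structure A] {α : Type} [Countable α]
    (a : α → A) : Countable (Idx FirstOrder.Language.ring a) := by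
  have h1 := countable_functions
  have h2 : Countable (Σ m : ℕ, FirstOrder.Language.ring.Formula (α ⊕ Fin m)) := inferInstance
  refine Function.Injective.countable (f := fun p : Idx FirstOrder.Language.ring a =>
    (⟨p.m, p.θ⟩ : Σ m : ℕ, FirstOrder.Language.ring.Formula (α ⊕ Fin m))) ?_
  rintro ⟨m, θ, _, _⟩ ⟨m', θ', _, _⟩ h
  simp only [Sigma.mk.injEq] at h
  obtain ⟨rfl, h⟩ := h
  obtain rfl := eq_of_heq h
  rfl

/-- The `Π₁` formula saying of `x` everything universal which is true of `a`. -/
def typeForm {A : Type u} [FirstOrder.Language.ring.Structure A] {α : Type} [Countable α]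
    (a : α → A) : Form FirstOrder.Language.ring α :=
  .and (ι := Idx FirstOrder.Language.ring a) fun p => .all p.m (.fin p.θ)

theorem isPi_typeForm {A : Type u} [FirstOrder.Language.ring.Structure A] {α : Type}
    [Countable α] (a : α → A) : IsPi 1 (typeForm a) :=
  IsPi.step (ι := Idx FirstOrder.Language.ring a) (fun p => p.m) (fun _ => 0)
    (fun _ => Nat.zero_lt_one) (fun p => .fin p.θ) (fun p => IsSigma.zero _ p.qf)

theorem typeForm_self {A : Type u} [FirstOrder.Language.ring.Structure A] {α : Type}
    [Countable α] (a : α → A) : (typeForm a).Realize A a := by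
  intro p x
  exact p.holds x

theorem realize_typeForm {A : Type u} [FirstOrder.Language.ring.Structure A] {α : Type}
    [Countable α] (a : α → A) (M : Type v) [FirstOrder.Language.ring.Structure M] (b : α → M) :
    (typeForm a).Realize M b ↔ ∀ (p : Idx FirstOrder.Language.ring a) (w : Fin p.m → M),
      p.θ.Realize (Sum.elim b w) := Iff.rfl

section sentence

variable {A : Type u} [FirstOrder.Language.ring.Structure A] {n : ℕ} (a : Fin n → A)

/-- Block lengths in the `Π₂` part. -/
def blk : Idx FirstOrder.Language.ring (Sum.elim Empty.elim a : Empty ⊕ Fin n → A) ⊕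
    FirstOrder.Language.ring.Term (Fin n) → ℕ
  | .inl p => p.m
  | .inr _ => 0

/-- The relabelling of variables used in the `Π₂` part. -/
def shift (n m : ℕ) : (Empty ⊕ Fin n) ⊕ Fin m → (Empty ⊕ Fin (n + 1)) ⊕ Fin m :=
  Sum.map (Sum.map id Fin.castSucc) id

/-- First kind of matrix in the `Π₂` part: the tuple violates one of the universal formulas. -/
def matOne (p : Idx FirstOrder.Language.ring (Sum.elim Empty.elim a : Empty ⊕ Fin n → A)) :
    FirstOrder.Language.ring.Formula ((Empty ⊕ Fin (n + 1)) ⊕ Fin p.m) :=
  FirstOrder.Language.BoundedFormula.not (p.θ.relabel (shift n p.m))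

/-- Second kind of matrix in the `Π₂` part: the last entry is the value of a term at the
tuple. -/
def matTwo (t : FirstOrder.Language.ring.Term (Fin n)) :
    FirstOrder.Language.ring.Formula ((Empty ⊕ Fin (n + 1)) ⊕ Fin 0) :=
  FirstOrder.Language.Term.equal
      (FirstOrder.Language.Term.var (Sum.inl (Sum.inr (Fin.last n))))
      (t.relabel fun j => Sum.inl (Sum.inr j.castSucc))

/-- Matrices in the `Π₂` part. -/
def mat : ∀ i : Idx FirstOrder.Language.ring (Sum.elim Empty.elim a : Empty ⊕ Fin n → A) ⊕
    FirstOrder.Language.ring.Term (Fin n),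
    Form FirstOrder.Language.ring ((Empty ⊕ Fin (n + 1)) ⊕ Fin (blk a i))
  | .inl p => .fin (matOne a p)
  | .inr t => .fin (matTwo t)

theorem realize_matOne (M : Type v) [FirstOrder.Language.ring.Structure M]
    (p : Idx FirstOrder.Language.ring (Sum.elim Empty.elim a : Empty ⊕ Fin n → A))
    (z : Fin (n + 1) → M) (w : Fin p.m → M) :
    (matOne a p).Realize (Sum.elim (Sum.elim Empty.elim z) w) ↔
      ¬ p.θ.Realize (Sum.elim (Sum.elim Empty.elim fun j : Fin n => z j.castSucc) w) := by
  unfold matOne
  rw [FirstOrder.Language.Formula.Realize, FirstOrder.Language.BoundedFormula.realize_not,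
    ← FirstOrder.Language.Formula.Realize, FirstOrder.Language.Formula.realize_relabel]
  have : Sum.elim (Sum.elim Empty.elim z) w ∘ shift n p.m =
      Sum.elim (Sum.elim Empty.elim fun j : Fin n => z j.castSucc) w := by
    funext j
    rcases j with (j | j) | j
    · exact j.elim
    · simp [shift]
    · simp [shift]
  rw [this]

theorem realize_matTwo (M : Type v) [FirstOrder.Language.ring.Structure M]
    (t : FirstOrder.Language.ring.Term (Fin n))
    (z : Fin (n + 1) → M) (w : Fin 0 → M) :
    (matTwo t).Realize (Sum.elim (Sum.elim Empty.elim z) w) ↔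
      z (Fin.last n) = t.realize (fun j : Fin n => z j.castSucc) := by
  unfold matTwo
  rw [FirstOrder.Language.Formula.realize_equal]
  simp only [FirstOrder.Language.Term.realize_var, Sum.elim_inl, Sum.elim_inr,
    FirstOrder.Language.Term.realize_relabel]
  rfl

/-- The `Σ₂` part. -/
def sigmaPart : Form FirstOrder.Language.ring Empty :=
  .or (ι := Unit) fun _ => .ex n (typeForm (Sum.elim Empty.elim a : Empty ⊕ Fin n → A))

/-- The `Σ₁` matrix of the `Π₂` part. -/
def inner : Form FirstOrder.Language.ring (Empty ⊕ Fin (n + 1)) :=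
  have : Countable (FirstOrder.Language.ring.Term (Fin n)) := by
    have h1 := countable_functions
    infer_instance
  .or (ι := Idx FirstOrder.Language.ring (Sum.elim Empty.elim a : Empty ⊕ Fin n → A) ⊕
    FirstOrder.Language.ring.Term (Fin n)) fun i => .ex (blk a i) (mat a i)

/-- The `Π₂` part. -/
def piPart : Form FirstOrder.Language.ring Empty :=
  .and (ι := Unit) fun _ => .all (n + 1) (inner a)

theorem isSigma_sigmaPart : IsSigma 2 (sigmaPart a) :=
  IsSigma.step (ι := Unit) (fun _ => n) (fun _ => 1) (fun _ => Nat.one_lt_two) _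
    (fun _ => isPi_typeForm _)

theorem isSigma_inner : IsSigma 1 (inner a) := by
  unfold inner
  refine IsSigma.step (blk a) (fun _ => 0) (fun _ => Nat.zero_lt_one) (mat a) ?_
  rintro (p | t)
  · exact IsPi.zero _ (p.qf.relabel _).not
  · exact IsPi.zero _ (FirstOrder.Language.BoundedFormula.IsAtomic.equal _ _).isQF

theorem isPi_piPart : IsPi 2 (piPart a) :=
  IsPi.step (ι := Unit) (fun _ => n + 1) (fun _ => 1) (fun _ => Nat.one_lt_two) _
    (fun _ => isSigma_inner a)

theorem realize_sigmaPart (M : Type v) [FirstOrder.Language.ring.Structure M] :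
    (sigmaPart a).Realize M Empty.elim ↔
      ∃ x : Fin n → M, (typeForm (Sum.elim Empty.elim a : Empty ⊕ Fin n → A)).Realize M
        (Sum.elim Empty.elim x) := by
  simp only [sigmaPart, Form.Realize]
  exact ⟨fun ⟨_, h⟩ => h, fun h => ⟨(), h⟩⟩

theorem realize_piPart (M : Type v) [FirstOrder.Language.ring.Structure M] :
    (piPart a).Realize M Empty.elim ↔
      ∀ x : Fin n → M, (typeForm (Sum.elim Empty.elim a : Empty ⊕ Fin n → A)).Realize M
        (Sum.elim Empty.elim x) →
        ∀ y : M, ∃ t : FirstOrder.Language.ring.Term (Fin n), t.realize x = y := by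
  simp only [piPart, Form.Realize, inner]
  constructor
  · intro h x hx y
    obtain ⟨i, w, hi⟩ := h () (Fin.snoc x y : Fin (n + 1) → M)
    rcases i with p | t
    · exfalso
      have hi' := (realize_matOne a M p (Fin.snoc x y) w).1 hi
      apply hi'
      have := (realize_typeForm _ M _).1 hx p w
      simpa using this
    · refine ⟨t, ?_⟩
      have hi' := (realize_matTwo M t (Fin.snoc x y) w).1 hi
      simpa using hi'.symm
  · intro h _ z
    by_cases hx : (typeForm (Sum.elim Empty.elim a : Empty ⊕ Fin n → A)).Realize M
        (Sum.elim Empty.elim (fun j : Fin n => z j.castSucc))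
    · obtain ⟨t, ht⟩ := h _ hx (z (Fin.last n))
      refine ⟨Sum.inr t, Fin.elim0, ?_⟩
      change (matTwo t).Realize (Sum.elim (Sum.elim Empty.elim z) _)
      rw [realize_matTwo, ← ht]
    · simp only [typeForm, Form.Realize, not_forall] at hx
      obtain ⟨p, w, hp⟩ := hx
      refine ⟨Sum.inl p, w, ?_⟩
      change (matOne a p).Realize (Sum.elim (Sum.elim Empty.elim z) w)
      rw [realize_matOne]
      exact hp

/-- The Scott sentence. -/
def scott : Form FirstOrder.Language.ring Empty :=
  .and (ι := Bool) (fun i => cond i (sigmaPart a) (piPart a))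

theorem isDSigma_scott : IsDSigma 2 (scott a) :=
  ⟨sigmaPart a, piPart a, isSigma_sigmaPart a, isPi_piPart a, rfl⟩

theorem realize_scott (M : Type v) [FirstOrder.Language.ring.Structure M] :
    (scott a).Realize M Empty.elim ↔
      (sigmaPart a).Realize M Empty.elim ∧ (piPart a).Realize M Empty.elim := by
  simp only [scott, Form.Realize, Bool.forall_bool, cond_true, cond_false]
  exact and_comm

end sentence

/-! ### Models of the sentence -/

/-- A model of the sentence is isomorphic to `A`, when `a` generates `A`. -/
theorem iso_of_realize {A : Type u} [FirstOrder.Language.ring.Structure A] {n : ℕ}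
    (a : Fin n → A)
    (ha : ∀ y : A, ∃ t : FirstOrder.Language.ring.Term (Fin n), t.realize a = y)
    (M : Type v) [FirstOrder.Language.ring.Structure M]
    (h : (scott a).Realize M Empty.elim) : Nonempty (A ≃[FirstOrder.Language.ring] M) := by
  obtain ⟨h1, h2⟩ := (realize_scott a M).1 h
  obtain ⟨x, hx⟩ := (realize_sigmaPart a M).1 h1
  have hgen := (realize_piPart a M).1 h2 x hx
  rw [realize_typeForm] at hx
  -- equality of terms
  have key : ∀ t s : FirstOrder.Language.ring.Term (Fin n),
      t.realize a = s.realize a ↔ t.realize x = s.realize x := by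
    intro t s
    let T : FirstOrder.Language.ring.Term (Fin n) →
        FirstOrder.Language.ring.Term ((Empty ⊕ Fin n) ⊕ Fin 0) :=
      fun t => t.relabel (fun j => Sum.inl (Sum.inr j))
    have hT : ∀ (N : Type u) [FirstOrder.Language.ring.Structure N] (b : Fin n → N)
        (w : Fin 0 → N) (t : FirstOrder.Language.ring.Term (Fin n)),
        (T t).realize (Sum.elim (Sum.elim Empty.elim b) w) = t.realize b := by
      intro N _ b w t
      simp only [T, FirstOrder.Language.Term.realize_relabel]
      rfl
    have hT' : ∀ (N : Type v) [FirstOrder.Language.ring.Structure N] (b : Fin n → N)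
        (w : Fin 0 → N) (t : FirstOrder.Language.ring.Term (Fin n)),
        (T t).realize (Sum.elim (Sum.elim Empty.elim b) w) = t.realize b := by
      intro N _ b w t
      simp only [T, FirstOrder.Language.Term.realize_relabel]
      rfl
    by_cases hts : t.realize a = s.realize a
    · have hp := hx ⟨0, FirstOrder.Language.Term.equal (T t) (T s),
        (FirstOrder.Language.BoundedFormula.IsAtomic.equal _ _).isQF, fun w => by
          rw [FirstOrder.Language.Formula.realize_equal, hT, hT, hts]⟩ Fin.elim0
      have hp' := (FirstOrder.Language.Formula.realize_equal).1 hp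
      rw [hT', hT'] at hp'
      exact ⟨fun _ => hp', fun _ => hts⟩
    · have hp := hx ⟨0, FirstOrder.Language.BoundedFormula.not
        (FirstOrder.Language.Term.equal (T t) (T s)),
        (FirstOrder.Language.BoundedFormula.IsAtomic.equal _ _).isQF.not, fun w => by
          rw [FirstOrder.Language.Formula.Realize, FirstOrder.Language.BoundedFormula.realize_not,
            ← FirstOrder.Language.Formula.Realize,
            FirstOrder.Language.Formula.realize_equal, hT, hT]
          exact hts⟩ Fin.elim0
      have hp' : ¬ (T t).realize (Sum.elim (Sum.elim Empty.elim x) Fin.elim0) =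
          (T s).realize (Sum.elim (Sum.elim Empty.elim x) Fin.elim0) := fun he =>
        hp (FirstOrder.Language.Formula.realize_equal.2 he)
      rw [hT', hT'] at hp'
      exact ⟨fun he => absurd he hts, fun he => absurd he hp'⟩
  choose τ hτ using ha
  let e : A → M := fun y => (τ y).realize x
  have he : ∀ t : FirstOrder.Language.ring.Term (Fin n), e (t.realize a) = t.realize x :=
    fun t => (key _ _).1 (hτ (t.realize a))
  have hinj : Function.Injective e := by
    intro y z hyz
    have := (key (τ y) (τ z)).2 hyz
    rwa [hτ, hτ] at this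
  have hsurj : Function.Surjective e := by
    intro y
    obtain ⟨t, ht⟩ := hgen y
    exact ⟨t.realize a, (he t).trans ht⟩
  refine ⟨{ toEquiv := Equiv.ofBijective e ⟨hinj, hsurj⟩, map_fun' := ?_, map_rel' := ?_ }⟩
  · intro m f y
    have h3 : FirstOrder.Language.Structure.funMap f y =
        (FirstOrder.Language.Term.func f (fun i => τ (y i))).realize a := by
      simp only [FirstOrder.Language.Term.realize, hτ]
    change e (FirstOrder.Language.Structure.funMap f y) =
      FirstOrder.Language.Structure.funMap f (e ∘ y)
    rw [h3, he]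
    simp only [FirstOrder.Language.Term.realize]
    rfl
  · intro m r
    exact r.elim

/-! ### The algebra: surjective endomorphisms of Noetherian rings -/

theorem injective_of_surjective {A : Type u} [CommRing A] [IsNoetherianRing A] (h : A →+* A)
    (hs : Function.Surjective h) : Function.Injective h := by
  let K : ℕ →o Ideal A :=
    { toFun := fun m => RingHom.ker (h ^ m)
      monotone' := monotone_nat_of_le_succ fun m x hx => by
        rw [RingHom.mem_ker] at hx ⊢
        rw [pow_succ', RingHom.mul_def, RingHom.comp_apply, hx, map_zero] }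
  obtain ⟨m, hm⟩ := monotone_stabilizes_iff_noetherian.2 ‹_› K
  have hsm : Function.Surjective (h ^ m) := by
    clear hm
    induction m with
    | zero => intro y; exact ⟨y, by simp⟩
    | succ m ih =>
      intro y
      obtain ⟨z, rfl⟩ := ih y
      obtain ⟨w, rfl⟩ := hs z
      exact ⟨w, by rw [pow_succ, RingHom.mul_def, RingHom.comp_apply]⟩
  rw [injective_iff_map_eq_zero]
  intro x hx
  obtain ⟨y, rfl⟩ := hsm x
  have h1 : y ∈ K (m + 1) := by
    change y ∈ RingHom.ker (h ^ (m + 1))
    rw [RingHom.mem_ker, pow_succ', RingHom.mul_def, RingHom.comp_apply]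
    exact hx
  rw [← hm (m + 1) (Nat.le_succ m)] at h1
  exact h1

theorem isNoetherianRing_freeCommRing (n : ℕ) : IsNoetherianRing (FreeCommRing (Fin n)) :=
  isNoetherianRing_of_ringEquiv _ (freeCommRingEquivMvPolynomialInt (Fin n)).symm

/-- A finitary conjunction of quantifier-free formulas is quantifier-free. -/
theorem isQF_foldr {L : FirstOrder.Language.{0, 0}} {α : Type} (l : List (L.Formula α))
    (hl : ∀ φ ∈ l, φ.IsQF) :
    FirstOrder.Language.BoundedFormula.IsQF
      (l.foldr (fun φ ψ => (φ ⊓ ψ : L.BoundedFormula α 0)) ⊤) := by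
  induction l with
  | nil => exact FirstOrder.Language.BoundedFormula.IsQF.top
  | cons φ l ih =>
    rw [List.foldr_cons]
    exact (hl φ (by simp)).inf (ih fun ψ hψ => hl ψ (by simp [hψ]))

/-- If `a` generates `A` and `b` satisfies everything universal which is true of `a`, then `b`
generates `A`. -/
theorem generates_of_typeForm {A : Type u} [CommRing A] [FirstOrder.Ring.CompatibleRing A]
    {n : ℕ} (a : Fin n → A) (ha : Function.Surjective (FreeCommRing.lift a)) (b : Fin n → A)
    (hb : (typeForm (Sum.elim Empty.elim a : Empty ⊕ Fin n → A)).Realize A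
      (Sum.elim Empty.elim b)) :
    ∀ y : A, ∃ t : FirstOrder.Language.ring.Term (Fin n), t.realize b = y := by
  have hN := isNoetherianRing_freeCommRing n
  have hNA : IsNoetherianRing A := isNoetherianRing_of_surjective _ _ _ ha
  obtain ⟨F, hF⟩ := (isNoetherianRing_iff_ideal_fg _).1 hN (RingHom.ker (FreeCommRing.lift a))
  choose p hp using fun i => ha (b i)
  -- the witnesses
  have hy : ∃ y : Fin n → A, (∀ f ∈ F, FreeCommRing.lift y f = 0) ∧
      ∀ i, FreeCommRing.lift y (p i) = a i := by
    by_contra hcon
    push Not at hcon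
    let T : FreeCommRing (Fin n) →
        FirstOrder.Language.ring.Term ((Empty ⊕ Fin n) ⊕ Fin n) :=
      fun f => (FirstOrder.Ring.termOfFreeCommRing f).relabel Sum.inr
    have hT : ∀ (c : Empty ⊕ Fin n → A) (w : Fin n → A) (f : FreeCommRing (Fin n)),
        (T f).realize (Sum.elim c w) = FreeCommRing.lift w f := by
      intro c w f
      simp only [T, FirstOrder.Language.Term.realize_relabel]
      rw [Sum.elim_comp_inr, FirstOrder.Ring.realize_termOfFreeCommRing]
    let l : List (FirstOrder.Language.ring.Formula ((Empty ⊕ Fin n) ⊕ Fin n)) :=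
      (F.toList.map fun f => FirstOrder.Language.Term.equal (T f) (T 0)) ++
        (List.finRange n).map fun i => FirstOrder.Language.Term.equal (T (p i))
          (FirstOrder.Language.Term.var (Sum.inl (Sum.inr i)))
    have hl : ∀ φ ∈ l, φ.IsQF := by
      intro φ hφ
      rw [List.mem_append, List.mem_map, List.mem_map] at hφ
      rcases hφ with ⟨f, -, rfl⟩ | ⟨i, -, rfl⟩
      · exact (FirstOrder.Language.BoundedFormula.IsAtomic.equal _ _).isQF
      · exact (FirstOrder.Language.BoundedFormula.IsAtomic.equal _ _).isQF
    have hreal : ∀ (c w : Fin n → A),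
        (∀ φ ∈ l, FirstOrder.Language.Formula.Realize φ
          (Sum.elim (Sum.elim Empty.elim c) w)) ↔
        (∀ f ∈ F, FreeCommRing.lift w f = 0) ∧ ∀ i, FreeCommRing.lift w (p i) = c i := by
      intro c w
      constructor
      · intro h
        constructor
        · intro f hf
          have := h _ (List.mem_append_left _ (List.mem_map.2 ⟨f, Finset.mem_toList.2 hf, rfl⟩))
          rw [FirstOrder.Language.Formula.realize_equal, hT, hT, map_zero] at this
          exact this
        · intro i
          have := h _ (List.mem_append_right _ (List.mem_map.2 ⟨i, List.mem_finRange i, rfl⟩))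
          rw [FirstOrder.Language.Formula.realize_equal, hT] at this
          exact this
      · rintro ⟨h1, h2⟩ φ hφ
        rw [List.mem_append, List.mem_map, List.mem_map] at hφ
        rcases hφ with ⟨f, hf, rfl⟩ | ⟨i, -, rfl⟩
        · rw [FirstOrder.Language.Formula.realize_equal, hT, hT, map_zero]
          exact h1 f (Finset.mem_toList.1 hf)
        · rw [FirstOrder.Language.Formula.realize_equal, hT]
          exact h2 i
    have hneg : ∀ (c w : Fin n → A), FirstOrder.Language.Formula.Realize
        (FirstOrder.Language.BoundedFormula.not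
          (l.foldr (fun φ ψ => (φ ⊓ ψ : FirstOrder.Language.ring.BoundedFormula _ 0)) ⊤))
          (Sum.elim (Sum.elim Empty.elim c) w) ↔
        ¬ ((∀ f ∈ F, FreeCommRing.lift w f = 0) ∧ ∀ i, FreeCommRing.lift w (p i) = c i) := by
      intro c w
      rw [FirstOrder.Language.Formula.Realize, FirstOrder.Language.BoundedFormula.realize_not,
        FirstOrder.Language.BoundedFormula.realize_foldr_inf, ← hreal c w]
      rfl
    have h1 := (realize_typeForm _ A _).1 hb ⟨n, _, (isQF_foldr l hl).not, fun w =>
      (hneg a w).2 fun hw => by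
        obtain ⟨i, hi⟩ := hcon w hw.1
        exact hi (hw.2 i)⟩ a
    have h2 := (hneg b a).1 h1
    apply h2
    refine ⟨fun f hf => ?_, hp⟩
    have : f ∈ RingHom.ker (FreeCommRing.lift a) := by
      rw [← hF]; exact Ideal.subset_span hf
    exact this
  obtain ⟨y, hy1, hy2⟩ := hy
  have hker : RingHom.ker (FreeCommRing.lift a) ≤ RingHom.ker (FreeCommRing.lift y) := by
    rw [← hF, Ideal.span_le]
    intro f hf
    exact hy1 f hf
  let h : A →+* A := (FreeCommRing.lift a).liftOfSurjective ha ⟨FreeCommRing.lift y, hker⟩
  have hh : ∀ f, h (FreeCommRing.lift a f) = FreeCommRing.lift y f := fun f =>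
    RingHom.liftOfRightInverse_comp_apply _ _ _ ⟨FreeCommRing.lift y, hker⟩ f
  have hhb : ∀ i, h (b i) = a i := fun i => by rw [← hp i, hh, hy2]
  have hhl : ∀ f, h (FreeCommRing.lift b f) = FreeCommRing.lift a f := by
    intro f
    have : h.comp (FreeCommRing.lift b) = FreeCommRing.lift a := by
      apply FreeCommRing.hom_ext
      intro i
      simp [hhb]
    exact congrArg (fun g => g f) this
  have hs : Function.Surjective h := by
    intro z
    obtain ⟨f, rfl⟩ := ha z
    exact ⟨_, hhl f⟩
  have hi := injective_of_surjective h hs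
  intro z
  obtain ⟨f, hf⟩ := ha (h z)
  refine ⟨FirstOrder.Ring.termOfFreeCommRing f, ?_⟩
  rw [FirstOrder.Ring.realize_termOfFreeCommRing]
  apply hi
  rw [hhl, hf]

/-- **Main theorem.** Every finitely generated commutative ring — in particular every finitely
generated integral domain — has a d-`Σ₂` Scott sentence in the language of rings. -/
theorem result (A : Type u) [CommRing A] [FirstOrder.Ring.CompatibleRing A]
    (hA : ∃ S : Finset A, Subring.closure (S : Set A) = ⊤) :
    ∃ φ : Form FirstOrder.Language.ring Empty, IsDSigma 2 φ ∧ IsScottSentence A φ := by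
  obtain ⟨S, hS⟩ := hA
  let a : Fin S.card → A := fun i => (S.equivFin.symm i : A)
  have ha : Function.Surjective (FreeCommRing.lift a) := by
    rw [← RingHom.range_eq_top, eq_top_iff, ← hS, Subring.closure_le]
    intro s hs
    refine ⟨FreeCommRing.of (S.equivFin ⟨s, hs⟩), ?_⟩
    rw [FreeCommRing.lift_of]
    simp [a]
  refine ⟨scott a, isDSigma_scott a, ?_⟩
  have hgen : ∀ y : A, ∃ t : FirstOrder.Language.ring.Term (Fin S.card), t.realize a = y := by
    intro y
    obtain ⟨f, hf⟩ := ha y
    exact ⟨FirstOrder.Ring.termOfFreeCommRing f, by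
      rw [FirstOrder.Ring.realize_termOfFreeCommRing, hf]⟩
  have hAA : (scott a).Realize A Empty.elim := by
    rw [realize_scott, realize_sigmaPart, realize_piPart]
    exact ⟨⟨a, typeForm_self _⟩, fun x hx => generates_of_typeForm a ha x hx⟩
  intro M _ _
  constructor
  · exact iso_of_realize a hgen M
  · rintro ⟨e⟩
    have h1 := (realize_iso e (scott a) Empty.elim).1 hAA
    have h0 : (e ∘ Empty.elim : Empty → M) = Empty.elim := funext fun i => i.elim
    rwa [h0] at h1

end Pool.Agent.Results.MP_93e0ce_lc.FinitelyGeneratedRings
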